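import Mathlib
import Pool.Agent.H54.Val3

namespace Pool.Agent.Results.MP_1a5975_nt.Int

open Nat Finset Pool.Agent.H54.SuperCat

/-- the normalised sum `a_n` -/
def a (n : ℕ) : ℚ :=
  1 / (4 * n * (2 * n + 1) * ((2 * n).choose n : ℚ)) *
    ∑ k ∈ range n, (35 * k + 8) * (((4 * k)! : ℚ) / (k ! : ℚ) ^ 4) * 81 ^ (n - 1 - k)

def T (j n : ℕ) : ℚ := (2 * n)! * (n + 3 * j)! / (3 ^ (n + 3 * j) * j ! ^ 2 * (n + j)! * n ! ^ 2)
def A (j n : ℕ) : ℚ := T j n * (12 * n ^ 2 / (n + 3 * j))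
def B (j n : ℕ) : ℚ := T j n * (108 * j ^ 2 / (n + 3 * j))
def U (j n : ℕ) : ℚ := ∑ i ∈ range j, A i n

lemma cl (j n : ℕ) : A j (n + 1) - A j n = B (j + 1) n - B j n := by
  rcases Nat.eq_zero_or_pos (n + 3 * j) with h0 | h0
  · obtain rfl : n = 0 := by omega
    obtain rfl : j = 0 := by omega
    norm_num [A, B, T, factorial]
  have : (0 : ℚ) < n + 3 * j := by exact_mod_cast h0
  simp only [A, B, T, show 2 * (n + 1) = 2 * n + 1 + 1 by ring, show n + 1 + 3 * j = n + 3 * j + 1 by ring,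
    show n + 3 * (j + 1) = n + 3 * j + 1 + 1 + 1 by ring, show n + 1 + j = n + j + 1 by ring,
    show n + (j + 1) = n + j + 1 by ring, factorial_succ, pow_succ]
  push_cast
  field_simp
  ring

lemma UB (j n : ℕ) : U j (n + 1) = U j n + B j n := by
  induction j with
  | zero => simp [U, B]
  | succ j ih =>
    simp only [U] at ih ⊢
    rw [sum_range_succ, ih, sum_range_succ]
    linarith [cl j n]

lemma TT (n : ℕ) : T n n = ((4 * n)! : ℚ) / (n ! : ℚ) ^ 4 / 81 ^ n := by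
  rw [T, show n + 3 * n = 4 * n by ring, ← two_mul, pow_mul]
  field_simp
  norm_num

lemma dg (n : ℕ) : A n n + B (n + 1) n = (35 * n + 8) * T n n := by
  rcases Nat.eq_zero_or_pos n with rfl | ht
  · norm_num [A, B, T, factorial]
  have : (0 : ℚ) < n := by exact_mod_cast ht
  simp only [A, B, T, show n + 3 * (n + 1) = n + 3 * n + 1 + 1 + 1 by ring,
    show n + (n + 1) = n + n + 1 by ring, factorial_succ, pow_succ]
  push_cast
  field_simp
  ring

lemma psi (n : ℕ) : U n n = ∑ k ∈ range n, (35 * k + 8) * T k k := by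
  induction n with
  | zero => rfl
  | succ n ih => rw [UB, sum_range_succ, ← ih, U, sum_range_succ, ← dg, U]; ring

/-- normalising factor -/
def W (n : ℕ) : ℚ := 81 ^ n / (4 * (n + 1) * (2 * n + 3) * ((2 * (n + 1))! / (n + 1)! ^ 2))

lemma a_eq (n : ℕ) : a (n + 1) = W n * U (n + 1) (n + 1) := by
  rw [psi, a, Nat.cast_choose ℚ (by omega), W, mul_sum, mul_sum, show 2 * (n + 1) - (n + 1) = n + 1 by omega]
  refine sum_congr rfl fun k hk => ?_
  obtain ⟨e, rfl⟩ := Nat.exists_eq_add_of_le (Nat.lt_succ_iff.1 (mem_range.1 hk))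
  rw [TT, show k + e + 1 - 1 - k = e by omega, pow_add]
  push_cast
  field_simp
  ring

def X (m j : ℕ) : ℚ := (m + 1) * (m + 3 * j)! / (j ! ^ 2 * (m + 1 + j)!)

lemma Xint (m j : ℕ) : ∃ z : ℤ, X m j = z := by
  cases j with
  | zero => exact ⟨1, by
    simp only [X, mul_zero, add_zero, factorial_succ m, factorial_zero]; push_cast; field_simp⟩
  | succ j =>
    obtain ⟨x, hx⟩ := bin (j + 1 + (j + 1)) (m + 1 + (j + 1))
    obtain ⟨y, hy⟩ := bin (j + 1) (j + 1)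
    obtain ⟨z, hz⟩ := bin (j + (j + 1)) (m + 1 + (j + 1))
    obtain ⟨w, hw⟩ := bin j (j + 1)
    refine ⟨x * y - 3 * z * w, ?_⟩
    push_cast
    rw [← hx, ← hy, ← hz, ← hw, X, show j + 1 + (j + 1) + (m + 1 + (j + 1)) = m + 3 * (j + 1) + 1 by ring,
      show j + (j + 1) + (m + 1 + (j + 1)) = m + 3 * (j + 1) by ring, factorial_succ (m + 3 * (j + 1)),
      factorial_succ j]
    push_cast
    field_simp
    ring

lemma t1 (j e : ℕ) : (2 * (j + e : ℕ) + 3) * (W (j + e) * A j (j + e + 1)) = 27 ^ e * X (j + e) j := by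
  simp only [W, A, T, X]
  rw [show j + e + 1 + 3 * j = j + e + 3 * j + 1 by ring, factorial_succ (j + e + 3 * j),
    show (81 : ℚ) = 3 ^ 4 by norm_num, show (27 : ℚ) = 3 ^ 3 by norm_num, ← pow_mul, ← pow_mul]
  push_cast
  field_simp
  ring

lemma t2 (j e : ℕ) : ((j + e : ℕ) + 1) * (W (j + e) * A j (j + e + 1 + 1)) =
    2 * 27 ^ e / 3 * X (j + e + 1) j := by
  simp only [W, A, T, X]
  rw [show j + e + 1 + 1 + 3 * j = j + e + 1 + 3 * j + 1 by ring, factorial_succ (j + e + 1 + 3 * j),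
    show 2 * (j + e + 1 + 1) = 2 * (j + e + 1) + 1 + 1 by ring, factorial_succ (2 * (j + e + 1) + 1),
    factorial_succ (2 * (j + e + 1)), factorial_succ (j + e + 1),
    show (81 : ℚ) = 3 ^ 4 by norm_num, show (27 : ℚ) = 3 ^ 3 by norm_num, ← pow_mul, ← pow_mul]
  push_cast
  field_simp
  ring

lemma t3 (n : ℕ) : 12 * (W n * B (n + 1) (n + 1)) = ((n + 1 + (n + 1))! / ((n + 1)! * (n + 1)!)) *
      (4 ^ (2 * (n + 1)) * h (2 * (n + 1)) / (2 * (n + 1))! / ((2 * (n + 1) : ℕ) + 1)) := by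
  rw [W, B, TT, h_eq, ← two_mul, show 2 * (2 * (n + 1)) = 4 * (n + 1) by ring]
  push_cast
  field_simp
  ring

lemma t4 (n : ℕ) : 2 / 3 * X (n + 1) n - (n + 1) * (W n * B (n + 1) (n + 1)) =
    -2 * (n + 1) * (2 * n - 1) * ((4 * n + 1)! / (n ! * n ! * (2 * n + 3)!)) := by
  rw [W, B, TT, X, show 4 * (n + 1) = 4 * n + 1 + 1 + 1 + 1 by ring, show n + 1 + 3 * n = 4 * n + 1 by ring,
    show n + 1 + 1 + n = 2 * (n + 1) by ring, show 2 * n + 3 = 2 * (n + 1) + 1 by ring,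
    factorial_succ (4 * n + 1 + 1 + 1), factorial_succ (4 * n + 1 + 1), factorial_succ (4 * n + 1),
    factorial_succ (2 * (n + 1)), factorial_succ n]
  push_cast
  field_simp
  ring

lemma chi (m : ℕ) (hm : 1 ≤ m) : 2 * L m + L (2 * m) + 1 ≤ L (4 * m) := by
  induction m using Nat.strong_induction_on with
  | _ m ih =>
    have h1 := Ladd (m / 3) (m / 3) (2 * (m / 3)) (by omega)
    rw [Lq m _ rfl]
    rcases (show m % 3 = 0 ∨ m % 3 = 1 ∨ m % 3 = 2 by omega) with h | h | h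
    · rw [Lq (2 * m) (2 * (m / 3)) (by omega), Lq (4 * m) (4 * (m / 3)) (by omega)]
      have := ih (m / 3) (by omega) (by omega)
      omega
    · rw [Lq (2 * m) (2 * (m / 3)) (by omega), Lq (4 * m) (4 * (m / 3) + 1) (by omega)]
      have := Ladd (2 * (m / 3)) (2 * (m / 3)) (4 * (m / 3) + 1) (by omega)
      omega
    · rw [Lq (2 * m) (2 * (m / 3) + 1) (by omega), Lq (4 * m) (4 * (m / 3) + 2) (by omega)]
      have := Ladd (2 * (m / 3)) (2 * (m / 3) + 1) (4 * (m / 3) + 2) (by omega)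
      omega

lemma phi (m d : ℕ) (hd : d ≤ 1) : 2 * L m + L (2 * m + 1) + 1 ≤ L (4 * m + d) ↔ ¬ IsP (2 * m + 1) := by
  induction m using Nat.strong_induction_on generalizing d with
  | _ m ih =>
    have h1 := Ladd (m / 3) (m / 3) (2 * (m / 3)) (by omega)
    rcases Nat.eq_zero_or_pos m with rfl | m0
    · rw [Lq (4 * 0 + d) 0 (by omega), L0]
      exact iff_of_false (by omega) (not_not.2 ⟨0, rfl⟩)
    rw [Lq m _ rfl]
    rcases (show m % 3 = 0 ∨ m % 3 = 1 ∨ m % 3 = 2 by omega) with h | h | h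
    · rw [Lq (2 * m + 1) (2 * (m / 3)) (by omega), Lq (4 * m + d) (4 * (m / 3)) (by omega)]
      have := chi (m / 3) (by omega)
      exact iff_of_true (by omega) (notP (by omega) (by omega))
    · rw [Lq (2 * m + 1) (2 * (m / 3) + 1) (by omega), Lq (4 * m + d) (4 * (m / 3) + 1) (by omega),
        show 2 * m + 1 = 3 * (2 * (m / 3) + 1) by omega, isP3, ← ih (m / 3) (by omega) 1 le_rfl]
      omega
    · rw [Lq (2 * m + 1) (2 * (m / 3) + 1) (by omega), Lq (4 * m + d) (4 * (m / 3) + 2 + d) (by omega)]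
      have := Ladd (2 * (m / 3)) (2 * (m / 3) + 1) (4 * (m / 3) + 2 + d) (by omega)
      exact iff_of_true (by omega) (notP (by omega) (by omega))

lemma main (n : ℕ) : ∃ b : ℤ, 3 * a (n + 1) = b ∧ (3 ∣ b ↔ ¬ IsP (2 * n + 3)) := by
  have I : ∃ x : ℤ, ((2 * n + 3 : ℤ) : ℚ) * a (n + 1) = x := by
    rw [a_eq, U, mul_sum, mul_sum]
    refine sum_int fun j hj => ?_
    obtain ⟨e, rfl⟩ := Nat.exists_eq_add_of_le (Nat.lt_succ_iff.1 hj)
    obtain ⟨y, hy⟩ := Xint (j + e) j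
    have := t1 j e
    push_cast at this ⊢
    rw [this, hy]
    exact ⟨27 ^ e * y, by push_cast; ring⟩
  obtain ⟨x, hx⟩ := I
  obtain ⟨z, hz⟩ := sum_int (n := n) (f := fun j => ((n : ℚ) + 1) * (W n * A j (n + 1 + 1)))
    fun j hj => by
      obtain ⟨e, rfl⟩ := Nat.exists_eq_add_of_lt hj
      obtain ⟨y, hy⟩ := Xint (j + (e + 1) + 1) j
      rw [add_assoc j, t2, hy]
      exact ⟨18 * 27 ^ e * y, by push_cast; ring⟩
  have II : (n + 1) * a (n + 1) = z + (2 / 3 * X (n + 1) n - (n + 1) * (W n * B (n + 1) (n + 1))) := by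
    have e2 := t2 n 0
    simp only [add_zero, pow_zero, mul_one] at e2
    rw [a_eq, ← hz, ← e2, ← mul_sum, ← mul_sum, ← sub_eq_iff_eq_add.2 (UB (n + 1) (n + 1)), U,
      sum_range_succ]
    ring
  obtain ⟨y1, h1⟩ := Xint (n + 1) n
  obtain ⟨y2, h2⟩ := bin (n + 1) (n + 1)
  obtain ⟨y3, h3⟩ := cat (2 * (n + 1))
  have e3 := t3 n
  rw [h2, h3] at e3
  obtain ⟨b, hb⟩ := int_of_coprime (q := 3 * a (n + 1)) (a := 2 * n + 3) (b := 2 ^ 2 * (n + 1)) (x := 3 * x)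
    (y := 12 * z + 8 * y1 - (n + 1) * y2 * y3)
    (IsCoprime.mul_right (IsCoprime.pow_right ⟨1, -((n : ℤ) + 1), by ring⟩) ⟨1, -2, by ring⟩)
    (by push_cast at hx ⊢; linear_combination 3 * hx)
    (by push_cast; linear_combination 12 * II + 8 * h1 - (n + 1) * e3)
  refine ⟨b, hb, ?_⟩
  by_cases h3n : n % 3 = 0
  · obtain ⟨m, rfl⟩ : ∃ m, n = 3 * m := ⟨n / 3, by omega⟩
    rcases Nat.eq_zero_or_pos m with rfl | m0
    · have : b = 1 := by
        have : 3 * a 1 = 1 := by norm_num [a, factorial, Nat.choose]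
        exact_mod_cast hb.symm.trans this
      exact iff_of_false (by omega) (not_not.2 ⟨1, rfl⟩)
    obtain ⟨k, rfl⟩ : ∃ k, m = k + 1 := ⟨m - 1, by omega⟩
    rw [t4] at II
    have e4 : ((3 * z - (3 * (k + 1) + 1) * b : ℤ) : ℚ) * ((3 * (k + 1))! * (3 * (k + 1))! *
        (2 * (3 * (k + 1)) + 3)! : ℕ) = (3 * (2 * (3 * k + 4) * (6 * k + 5)) * (4 * (3 * (k + 1)) + 1)! : ℕ) := by
      push_cast at II ⊢
      rw [← hb, show 3 * (z : ℚ) - (3 * (k + 1) + 1) * (3 * a (3 * (k + 1) + 1)) =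
        3 * (z - (3 * (k + 1) + 1) * a (3 * (k + 1) + 1)) by ring, II]
      field_simp
      ring
    have e5 := congrArg Int.natAbs (show (3 * z - (3 * (k + 1) + 1) * b) * _ = _ by exact_mod_cast e4)
    rw [Int.natAbs_mul, Int.natAbs_natCast, Int.natAbs_natCast] at e5
    have e6 := dvd_iff (factorial_ne_zero _) (by positivity) (by
      rw [Nat.prime_three.dvd_mul, Nat.prime_three.dvd_mul]; omega) e5
    rw [padicValNat.mul (by positivity) (factorial_ne_zero _),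
      padicValNat.mul (factorial_ne_zero _) (factorial_ne_zero _), ← L, ← L, ← L,
      Lq (3 * (k + 1)) (k + 1) (by omega), Lq (2 * (3 * (k + 1)) + 3) (2 * (k + 1) + 1) (by omega),
      Lq (4 * (3 * (k + 1)) + 1) (4 * (k + 1) + 0) (by omega)] at e6
    rw [show 2 * (3 * (k + 1)) + 3 = 3 * (2 * (k + 1) + 1) by ring, isP3, ← phi (k + 1) 0 (by omega)]
    rw [show (3 * z - (3 * (k + 1) + 1) * b : ℤ) = -b + 3 * (z - (k + 1) * b) by ring,
      dvd_add_left (dvd_mul_right _ _), dvd_neg] at e6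
    omega
  · refine iff_of_true ?_ (notP (by omega) (by omega))
    have : (2 * n + 3) * b = 3 * x := by
      have : ((2 * n + 3 : ℤ) : ℚ) * b = 3 * x := by rw [← hb, ← hx]; ring
      exact_mod_cast this
    exact (Int.prime_three.dvd_mul.1 (Dvd.intro _ this.symm)).resolve_left (by omega)

theorem result (n : ℕ) (hn : 1 ≤ n) :
    ((¬ ∃ m : ℕ, 1 ≤ m ∧ 2 * n + 1 = 3 ^ m) → ∃ z : ℤ, a n = z) ∧
    ((∃ m : ℕ, 1 ≤ m ∧ 2 * n + 1 = 3 ^ m) → ∃ z : ℤ, 3 * a n = z ∧ ¬ 3 ∣ z) := by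
  obtain ⟨n, rfl⟩ : ∃ m, n = m + 1 := ⟨n - 1, by omega⟩
  obtain ⟨b, h1, h2⟩ := main n
  refine ⟨fun h => ?_, fun ⟨m, _, hm⟩ => ⟨b, h1, fun h => h2.1 h ⟨m, hm⟩⟩⟩
  obtain ⟨c, rfl⟩ := h2.2 fun ⟨m, hm⟩ => h ⟨m, by
    rcases m with _ | m
    · omega
    · omega, hm⟩
  exact ⟨c, by push_cast at h1; linarith⟩

end Pool.Agent.Results.MP_1a5975_nt.Int
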